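import Pool.Agent.helper95.SP.SpecCH

/-!
# Project sp, part CH: module REC (separation with an inner weight)
-/

namespace TP

open DP MeasureTheory

namespace K

theorem REC_okT (x : V) (m r : ℕ) (h : m ≤ r) : (Dfree true x m).ok true x r := by
  unfold Dat.ok Dfree
  simp only [if_true]
  refine ⟨fun _ v hv => ?_, fun _ v hv => ?_⟩
  · have : sd x v = m := hv
    show sd x v ≤ r
    omega
  · have : sd x v < m := hv
    show sd x v ≤ r
    omega

theorem REC_nonneg (Z : (V → Bool) → ℝ) (hZ : ∀ b, 0 ≤ Z b) (F : Set (V → Bool)) :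
    0 ≤ EZ Z F := by
  unfold EZ
  exact integral_nonneg hZ

theorem REC (hFA : FA_stmt) (hAM : AM_stmt) (hWL : WL_stmt) (hLQ : LQ_stmt) (hSX1 : SX1_stmt)
    (hSX3 : SX3_stmt) : REC_stmt := by
  obtain ⟨c₁, hc₁, i₁, h1⟩ := hSX1
  obtain ⟨C, hC, i₃, h3⟩ := hSX3 (c₁ / 2) (by positivity)
  obtain ⟨hL1, hL2, -, -, -, -⟩ := hLQ
  refine ⟨C, hC, max i₁ i₃, ?_⟩
  intro x t r Z B hx ht hr hZ hZ0 hB h0 k
  have ht1 : i₁ ≤ t := le_trans (le_max_left _ _) ht
  have ht3 : i₃ ≤ t := le_trans (le_max_right _ _) ht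
  -- free arms as families
  have hFam : ∀ (i : ℕ), t < i → (F4 x t i = Ev fun c => Fam c 4 true x (2 ^ i) (Dfree true x (2 ^ t))) := by
    intro i hi
    have hp : (2 : ℕ) ^ t < 2 ^ i := Nat.pow_lt_pow_right (by norm_num) hi
    unfold F4 Ev
    ext b
    have h := (hFA (col b) 4 x (2 ^ t) (2 ^ i) (Or.inr rfl) hx (Nat.one_le_two_pow) hp).1
    have e : ar 4 (col b) x (2 ^ t) (2 ^ i) = four (col b) x (2 ^ t) (2 ^ i) := if_pos rfl
    rw [e] at h
    exact h.symm
  have hS0 : ∀ i, 0 ≤ EZ Z (S4 x t i) := fun i => REC_nonneg Z hZ0 _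
  -- one scale for standard arms
  have hstep1 : ∀ i, r + 1 ≤ i → c₁ * EZ Z (S4 x t i) ≤ EZ Z (S4 x t (i + 1)) := by
    intro i hi
    have key := hWL (box x (2 ^ r)) Set.univ Z (S4 x t i) (S4 x t (i + 1)) (S4 x t (i + 1)) c₁ 1 0
      hZ hZ0 ((hL2 x t i (by omega)).mono (Set.subset_univ _))
      ((hL2 x t (i + 1) (by omega)).mono (Set.subset_univ _))
      ((hL2 x t (i + 1) (by omega)).mono (Set.subset_univ _)) (by
        intro X hX
        have h := h1 x (Dfree true x (2 ^ t)) X i hx (by omega)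
          (REC_okT x _ _ (Nat.pow_le_pow_right (by norm_num) (by omega)))
          (hX.mono (fun v hv => le_trans hv (Nat.pow_le_pow_right (by norm_num) (by omega))))
        unfold S4
        linarith)
    linarith
  -- one scale for free arms
  have hstep3 : ∀ i, r + 1 ≤ i → EZ Z (F4 x t (i + 1)) ≤
      C * EZ Z (S4 x t (i + 2)) + c₁ / 2 * EZ Z (F4 x t i) := by
    intro i hi
    have key := hWL (box x (2 ^ r)) Set.univ Z (F4 x t (i + 1)) (S4 x t (i + 2)) (F4 x t i) 1 C
      (c₁ / 2) hZ hZ0 ((hL1 x t (i + 1)).mono (Set.subset_univ _))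
      ((hL2 x t (i + 2) (by omega)).mono (Set.subset_univ _))
      ((hL1 x t i).mono (Set.subset_univ _)) (by
        intro X hX
        have h := h3 x (Dfree true x (2 ^ t)) X (i + 1) hx (by omega)
          (REC_okT x _ _ (Nat.pow_le_pow_right (by norm_num) (by omega)))
          (hX.mono (fun v hv => le_trans hv (Nat.pow_le_pow_right (by norm_num) (by omega))))
          (by
            intro c hc
            have e1 := (hFA c 4 x (2 ^ t) (2 ^ (i + 1)) (Or.inr rfl) hx (Nat.one_le_two_pow)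
              (Nat.pow_lt_pow_right (by norm_num) (by omega))).1
            have e2 := (hFA c 4 x (2 ^ t) (2 ^ i) (Or.inr rfl) hx (Nat.one_le_two_pow)
              (Nat.pow_lt_pow_right (by norm_num) (by omega))).1
            have e3 : i + 1 - 1 = i := by omega
            rw [e3]
            rw [e2]
            exact hAM c 4 x (2 ^ t) (2 ^ t) (2 ^ i) (2 ^ (i + 1)) (Or.inr rfl) le_rfl
              (Nat.pow_le_pow_right (by norm_num) (by omega))
              (Nat.pow_le_pow_right (by norm_num) (by omega)) (e1.1 hc))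
        have e3 : i + 1 - 1 = i := by omega
        rw [e3] at h
        rw [hFam (i + 1) (by omega), hFam i (by omega)]
        unfold S4
        linarith)
    linarith
  induction k with
  | zero =>
    have e : (2 * C + B / 2 ^ 0) = 2 * C + B := by norm_num
    rw [e]
    have h5 := hS0 (r + 2)
    have h6 : 0 ≤ 2 * C * EZ Z (S4 x t (r + 2)) := by positivity
    show EZ Z (F4 x t (r + 1)) ≤ (2 * C + B) * EZ Z (S4 x t (r + 2))
    nlinarith
  | succ k ih =>
    have h5 := hstep3 (r + 1 + k) (by omega)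
    have h6 := hstep1 (r + 2 + k) (by omega)
    have e1 : r + 1 + (k + 1) = r + 1 + k + 1 := by omega
    have e2 : r + 2 + (k + 1) = r + 2 + k + 1 := by omega
    have e3 : r + 1 + k + 2 = r + 2 + k + 1 := by omega
    rw [e3] at h5
    rw [e1, e2]
    have hA : 0 ≤ 2 * C + B / 2 ^ k := by positivity
    have h7 : c₁ / 2 * EZ Z (F4 x t (r + 1 + k)) ≤
        c₁ / 2 * ((2 * C + B / 2 ^ k) * EZ Z (S4 x t (r + 2 + k))) :=
      mul_le_mul_of_nonneg_left ih (by positivity)
    have h8 : (2 * C + B / 2 ^ k) / 2 * (c₁ * EZ Z (S4 x t (r + 2 + k))) ≤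
        (2 * C + B / 2 ^ k) / 2 * EZ Z (S4 x t (r + 2 + k + 1)) :=
      mul_le_mul_of_nonneg_left h6 (by positivity)
    have e4 : B / 2 ^ (k + 1) = B / 2 ^ k / 2 := by rw [pow_succ]; field_simp
    rw [e4]
    nlinarith

end K

end TP
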