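import Pool.Agent.helper33.SP.SpecC1S

/-!
# Project sp, piece C1: module UJ13 (locality of the good event)
-/

namespace TP

open DP MeasureTheory

theorem UJ13_dep {F : Set (V → Bool)} {A : Set V} (h : Loc F A) : Dep F A := by
  obtain ⟨Λ, h1, h2⟩ := h
  exact fun b b' hb => h2 b b' (fun v hv => hb v (h1 hv))

theorem UJ13_br (x v : V) : sd x (br v) ≤ sd x v + 1 ∧ sd x v ≤ sd x (br v) + 1 := by
  unfold br sd
  split_ifs with h
  · omega
  · simp only
    omega

theorem UJ13_fin (x : V) (m n : ℕ) : (ann x m n).Finite := by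
  refine ((Set.finite_Icc (x.1 - n) (x.1 + n)).prod (Set.finite_Icc (x.2 - n) (x.2 + n))).subset ?_
  intro v hv
  have h : sd x v ≤ n := hv.2
  unfold sd at h
  simp only [Set.mem_prod, Set.mem_Icc]
  omega

theorem UJ13_pow (k : ℕ) : (2 : ℕ) ^ (k + 1) = 2 * 2 ^ k := by
  rw [pow_succ]; ring

theorem UJ13 (hLG : K.LG_stmt) (hLQ : K.LQ_stmt) : UJ13_stmt := by
  intro θ x p m g hg hm
  obtain ⟨hL1, -⟩ := hLQ
  have hthr : Loc (thr x p m g) (ann x (2 ^ (p - g - 1)) (2 ^ (p + m + g + 1))) :=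
    hL1 x (p - g - 1) (p + m + g + 1)
  have hG1 := UJ13_dep (hLG x (p - g - 1) (p - 1)).1
  have hG2 := UJ13_dep (hLG x (p + m + 1) (p + m + g + 1)).1
  -- the gates
  have hgts : ∀ b b' : V → Bool,
      (∀ v ∈ ann x (2 ^ (p - g - 1)) (2 ^ (p - 1)), b (br v) = b' (br v)) →
      (∀ v ∈ ann x (2 ^ (p + m + 1)) (2 ^ (p + m + g + 1)), b (br v) = b' (br v)) →
        (b ∈ gts x p m g ↔ b' ∈ gts x p m g) := by
    intro b b' h1 h2
    have e1 := hG1 b b' h1
    have e2 := hG2 b b' h2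
    exact and_congr e1 e2
  -- the conditional probability
  have hcond : ∀ b b' : V → Bool,
      (∀ v ∈ ann x (2 ^ (p - g - 1)) (2 ^ (p + m + g + 1)), b (br v) = b' (br v)) →
        {b'' | mx (Ag x p m) b b'' ∈ thr x p m g} = {b'' | mx (Ag x p m) b' b'' ∈ thr x p m g} := by
    intro b b' h
    ext b''
    apply UJ13_dep hthr
    intro v hv
    unfold mx
    by_cases hA : br v ∈ Ag x p m
    · rw [if_pos hA, if_pos hA]
    · rw [if_neg hA, if_neg hA]; exact h v hv
  have hpow1 : (2 : ℕ) ^ (p - 1) ≤ 2 ^ (p + m + g + 1) :=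
    Nat.pow_le_pow_right (by norm_num) (by omega)
  have hpow2 : (2 : ℕ) ^ (p - g - 1) ≤ 2 ^ (p + m + 1) :=
    Nat.pow_le_pow_right (by norm_num) (by omega)
  have hdep : Dep (gdE θ x p m g) (ann x (2 ^ (p - g - 1)) (2 ^ (p + m + g + 1))) := by
    intro b b' h
    have e1 := hgts b b' (fun v hv => h v ⟨hv.1, hv.2.trans hpow1⟩)
      (fun v hv => h v ⟨hpow2.trans hv.1, hv.2⟩)
    have e2 := hcond b b' h
    unfold gdE
    simp only [Set.mem_ofPred_eq]
    rw [e2, e1]
  refine ⟨?_, hthr, ?_, ?_⟩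
  · exact ⟨(UJ13_fin x (2 ^ (p - g - 1)) (2 ^ (p + m + g + 1))).toFinset, by simp,
      by simpa using hdep⟩
  · intro b b' h
    have e1 := hgts b b' (by
      intro v hv
      apply h
      intro hA
      have h1 : 2 ^ p < sd x (br v) := hA.1
      have h2 := (UJ13_br x v).1
      have h3 : sd x v ≤ 2 ^ (p - 1) := hv.2
      have h4 : (2 : ℕ) ^ p = 2 * 2 ^ (p - 1) := by
        rw [← UJ13_pow]; congr 1; omega
      have h5 : 1 ≤ (2 : ℕ) ^ (p - 1) := Nat.one_le_two_pow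
      omega) (by
      intro v hv
      apply h
      intro hA
      have h1 : sd x (br v) < 2 ^ (p + m) := hA.2
      have h2 := (UJ13_br x v).2
      have h3 : 2 ^ (p + m + 1) ≤ sd x v := hv.1
      have h4 := UJ13_pow (p + m)
      have h5 : 1 ≤ (2 : ℕ) ^ (p + m) := Nat.one_le_two_pow
      omega)
    have e2 : ∀ b'', mx (Ag x p m) b b'' = mx (Ag x p m) b' b'' := by
      intro b''
      funext v
      unfold mx
      by_cases hA : v ∈ Ag x p m
      · rw [if_pos hA, if_pos hA]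
      · rw [if_neg hA, if_neg hA]; exact h v hA
    unfold gdE
    simp only [Set.mem_ofPred_eq, e2]
    rw [e1]
  · intro b b' h
    have hb : ∀ v ∈ ann x (2 ^ (p - g - 1)) (2 ^ (p + m + g + 1)), b (br v) = b' (br v) := by
      intro v hv
      apply h
      have h1 : 2 ^ (p - g - 1) ≤ sd x v := hv.1
      have h2 : sd x v ≤ 2 ^ (p + m + g + 1) := hv.2
      have h3 := UJ13_br x v
      have h4 : (2 : ℕ) ^ (p - g - 1) = 2 * 2 ^ (p - g - 2) := by
        rw [← UJ13_pow]; congr 1; omega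
      have h5 : (2 : ℕ) ^ (p + m + g + 2) = 2 * 2 ^ (p + m + g + 1) := UJ13_pow _
      have h6 : (2 : ℕ) ^ 2 ≤ 2 ^ (p - g - 2) := Nat.pow_le_pow_right (by norm_num) (by omega)
      have h7 : (2 : ℕ) ^ 2 ≤ 2 ^ (p + m + g + 1) := Nat.pow_le_pow_right (by norm_num) (by omega)
      omega
    exact ⟨hdep b b' hb, UJ13_dep hthr b b' hb⟩

end TP
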